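import Pool.Agent.MP_f58063_ag.S.Defs

/-! Rational equivalence of effective zero-cycles on an abelian variety: definitions. -/

open Complex Filter Topology

noncomputable section

namespace Pool.Agent.MP_cf0a82_ag

open Pool.Agent.MP_f58063_ag

/-- the period lattice `D ℤ^g + τ ℤ^g` -/
def lat {g : ℕ} (D : Fin g → ℕ) (τ : Mat g) : AddSubgroup (Fin g → ℂ) :=
  AddSubgroup.closure
    ((Set.range fun j : Fin g => (Pi.single j (D j : ℂ) : Fin g → ℂ)) ∪
      Set.range fun j i : Fin g => τ i j)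

/-- the abelian variety `ℂ^g / (D ℤ^g + τ ℤ^g)` -/
abbrev Tor {g : ℕ} (D : Fin g → ℕ) (τ : Mat g) : Type := (Fin g → ℂ) ⧸ lat D τ

/-- the effective zero-cycle given by the classes of `p 0, ..., p (n-1)` -/
def cyc {g n : ℕ} (D : Fin g → ℕ) (τ : Mat g) (p : Fin n → Fin g → ℂ) : Multiset (Tor D τ) :=
  ∑ i, {(QuotientAddGroup.mk (p i) : Tor D τ)}

/-- near `t₀` the family `Z` of effective zero-cycles of degree `n` is holomorphic: after a base
change `t = t₀ + s ^ e` its points depend holomorphically on `s` -/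
def HolAt {g : ℕ} (D : Fin g → ℕ) (τ : Mat g) (n : ℕ) (Z : ℂ → Multiset (Tor D τ)) (t₀ : ℂ) :
    Prop :=
  ∃ (e : ℕ) (p : ℂ → Fin n → Fin g → ℂ), 0 < e ∧ AnalyticAt ℂ p 0 ∧
    ∀ᶠ s in 𝓝 (0 : ℂ), Z (t₀ + s ^ e) = cyc D τ (p s)

/-- rational equivalence of effective zero-cycles: a holomorphic map from the projective line
(charts `Z` and `Z'`) to a symmetric product joins `z + β` to `z' + β` -/
def RatEq {g : ℕ} (D : Fin g → ℕ) (τ : Mat g) (z z' : Multiset (Tor D τ)) : Prop :=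
  ∃ (n : ℕ) (Z Z' : ℂ → Multiset (Tor D τ)) (β : Multiset (Tor D τ)),
    (∀ t, HolAt D τ n Z t) ∧ HolAt D τ n Z' 0 ∧ (∀ s, s ≠ 0 → Z' s = Z s⁻¹) ∧
      Z 0 = z + β ∧ Z' 0 = z' + β

/-- the orbit of `z` in degree `k` has positive dimension -/
def PosOrb {g : ℕ} (D : Fin g → ℕ) (τ : Mat g) (k : ℕ) (z : Multiset (Tor D τ)) : Prop :=
  ∃ y₀, DimGE {y : Fin k → Fin g → ℂ | RatEq D τ (cyc D τ y) z} y₀ 1

/-- the preimage in `ℂ^g` of the locus of positive-dimensional normalized orbits of degree `k` -/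
def ZA {g : ℕ} (D : Fin g → ℕ) (τ : Mat g) (k : ℕ) : Set (Fin g → ℂ) :=
  {a | ∃ x : Fin k → Fin g → ℂ, (∃ i, x i = a) ∧ ∑ i, x i = 0 ∧ PosOrb D τ k (cyc D τ x)}

end Pool.Agent.MP_cf0a82_ag
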