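import Pool.Agent.Mg.Fcf0a82q.G91b0b6

/-! No positive-dimensional orbits of degree `k` on a very general abelian variety of dimension
`g` as long as `4 k + 3 g ≤ g ^ 2 + 8`. -/

open Complex Filter Topology Matrix Function

noncomputable section

namespace Pool.Agent.MP_cf0a82_ag

open Pool.Agent.MP_f58063_ag

variable {g k : ℕ}

lemma quad_ceq {τ : Mat g} {n : ℕ} {q q' : Fin n → EE g} (c : EE g) (h : CEq τ q q') :
    CEq τ (fun i => q i + c) (fun i => q' i + c) := by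
  obtain ⟨σ, h⟩ := h
  refine ⟨σ, fun i => ?_⟩
  obtain ⟨m, l, h⟩ := h i
  exact ⟨m, l, by simp only [h]; abel⟩

lemma quad_hol {τ : Mat g} {n : ℕ} {Z : ℂ → Fin n → EE g} {t : ℂ} (c : EE g) (h : HolI τ Z t) :
    HolI τ (fun s i => Z s i + c) t := by
  obtain ⟨e, p, he, hp, h⟩ := h
  refine ⟨e, fun s i => p s i + c, he, ?_, h.mono fun s hs => quad_ceq c hs⟩
  exact hp.add (analyticAt_const (v := fun _ : Fin n => c))

lemma quad_append {b : ℕ} (a : Fin k → EE g) (β : Fin b → EE g) (c : EE g) :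
    (fun i => Fin.append a β i + c) = Fin.append (fun i => a i + c) (fun i => β i + c) := by
  funext i
  refine Fin.addCases (fun i => ?_) (fun i => ?_) i <;>
    simp only [Fin.append_left, Fin.append_right]

/-- rational equivalence is invariant under translations -/
lemma quad_rat {τ : Mat g} {a a' : Fin k → EE g} (c : EE g) (h : RatI τ a a') :
    RatI τ (fun i => a i + c) (fun i => a' i + c) := by
  obtain ⟨b, β, Z, Z', h1, h2, h3, h4, h5⟩ := h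
  refine ⟨b, fun i => β i + c, fun s i => Z s i + c, fun s i => Z' s i + c,
    fun t => quad_hol c (h1 t), quad_hol c h2, fun s hs => quad_ceq c (h3 s hs), ?_, ?_⟩
  · rw [← quad_append]
    exact quad_ceq c h4
  · rw [← quad_append]
    exact quad_ceq c h5

lemma quad_dim {τ : Mat g} {X Y : Fin k → EE g} (c : EE g) (h : DimGE {y | RatI τ y X} Y 1) :
    DimGE {y | RatI τ y fun i => X i + c} (fun i => Y i + c) 1 := by
  obtain ⟨f, h0, h1, h2, h3⟩ := h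
  refine ⟨fun t => f t + fun _ => c, ?_, h1.add analyticAt_const, ?_,
    h3.mono fun t ht => ?_⟩
  · rw [← h0]
    rfl
  · rw [fderiv_add_const]
    exact h2
  · have := quad_rat c ht
    exact this

theorem quad_box (hk : 0 < k) (hg : 2 ≤ g) (hc : 2 * k + 2 * g ≤ NN g + 1 + 3) (B : Box g) :
    ∃ 𝒬 : Set (MvPolynomial (Fin (NN g)) ℂ), 𝒬.Countable ∧ (∀ Q ∈ 𝒬, Q ≠ 0) ∧
      ∀ x ∈ B.ball, (∀ Q ∈ 𝒬, MvPolynomial.eval x Q ≠ 0) →
        ∀ (D : Fin g → ℕ) (X : Fin k → Fin g → ℂ), ¬ PosOrb D (B.ψ x) k (cyc D (B.ψ x) X) := by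
  have h0 : 0 < g := by omega
  obtain ⟨A⟩ := atl_exists h0 B
  choose 𝒬 hq hne hQ using fun δ : Dat B k =>
    NR.exc _ (δ.R_spec A h0).1 fun j => (δ.R_spec A h0).2
      (Or.inl (Or.inl (Or.inr ⟨j, rfl⟩)))
  refine ⟨⋃ δ, 𝒬 δ, Set.countable_iUnion hq, fun Q h => ?_, fun x hx h D X hp => ?_⟩
  · obtain ⟨δ, h⟩ := Set.mem_iUnion.1 h
    exact hne δ Q h
  have key : ∀ (δ : Dat B k) (q : DD g × δ.W), δ.S2 A q → q.1 = x →
      ∀ ξ, ∃ η, Tan (δ.R A) q (ξ, η) := fun δ q h1 h2 =>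
    hQ δ q h1.1.1.mem fun Q h' => by
      rw [h2]
      exact h Q (Set.mem_iUnion.2 ⟨δ, h'⟩)
  obtain ⟨Y, hY⟩ := hp
  have hs : ∑ l, (fun i => X i + (-(k : ℂ)⁻¹) • ∑ j, X j) l = 0 := by
    have hk' : (k : ℂ) ≠ 0 := Nat.cast_ne_zero.2 hk.ne'
    simp only [Finset.sum_add_distrib, Finset.sum_const, Finset.card_univ, Fintype.card_fin]
    rw [← Nat.cast_smul_eq_nsmul ℂ, smul_smul, mul_neg, mul_inv_cancel₀ hk', neg_smul, one_smul,
      add_neg_cancel]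
  obtain ⟨δ, q, h1, h2, -⟩ := lev1 h0 A hx
    (quad_dim _ (ximain_mono (fun y hy => ratI_of_ratEq hy) hY)) hs
  obtain ⟨m, U, x', y', u, hF, -⟩ := fam_of_point h0 h1 (key δ q h1 h2)
  obtain ⟨e, he⟩ := hF.ne
  exact hF.not_rk hg ⟨e, he, one_le_rk _ (hF.dy e he)⟩ hc

theorem quad_main (g k : ℕ) (hg : 3 ≤ g) (hc : 4 * k + 3 * g ≤ g ^ 2 + 8) :
    ∃ 𝓕 : Set (Subgroup (Sp g) × (Mat g → ℂ) × (Mat g → ℂ)), 𝓕.Countable ∧
      (∀ F ∈ 𝓕, F.1.FiniteIndex ∧ IsModFun F.1 F.2.1 F.2.2 ∧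
        ∃ τ ∈ Siegel g, F.2.1 τ ≠ 0 ∧ F.2.2 τ ≠ 0) ∧
      ∀ τ ∈ Siegel g, (∀ F ∈ 𝓕, F.2.2 τ ≠ 0 → F.2.1 τ ≠ 0) →
        ∀ (D : Fin g → ℕ) (x : Fin k → Fin g → ℂ), ¬ PosOrb D τ k (cyc D τ x) := by
  rcases k.eq_zero_or_pos with rfl | hk
  · refine ⟨∅, Set.countable_empty, fun _ h => h.elim, fun _ _ _ D x => ?_⟩
    rintro ⟨y, f, -, -, h2, -⟩
    have := h2 (Subsingleton.elim (fderiv ℂ f 0 0) (fderiv ℂ f 0 1))
    exact zero_ne_one (congrFun this 0)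
  have hc' : 2 * k + 2 * g ≤ NN g + 1 + 3 := by
    have h1 : 2 * (2 * k + 2 * g - 4) ≤ g * (g + 1) := by
      have : g * (g + 1) = g ^ 2 + g := by ring
      omega
    have h2 : 2 * k + 2 * g - 4 ≤ g * (g + 1) / 2 := by omega
    unfold NN
    omega
  obtain ⟨B, hB⟩ := box_cover g
  choose 𝒬 hq hne hQ using fun n => quad_box hk (by omega) hc' (B n)
  choose h t hm hex hall using fun s : Σ n : ℕ, 𝒬 n => (B s.1).modq (hne s.1 s.2.1 s.2.2)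
  have : ∀ n, Countable (𝒬 n) := fun n => (hq n).to_subtype
  refine ⟨Set.range fun s : Σ n : ℕ, 𝒬 n => (Gam g (2 * (B s.1).N ^ 2), h s, t s),
    Set.countable_range _, ?_, fun τ hτ hF D p => ?_⟩
  · rintro _ ⟨s, rfl⟩
    have := (B s.1).hN
    exact ⟨Gam_finiteIndex g (by positivity), hm s, hex s⟩
  · obtain ⟨n, x, hx, rfl⟩ := hB τ hτ
    refine hQ n x hx (fun Q hQ' => ?_) D p
    obtain ⟨h1, h2⟩ := hall ⟨n, Q, hQ'⟩ x hx
    exact h2 (hF _ ⟨⟨n, Q, hQ'⟩, rfl⟩ h1)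

end Pool.Agent.MP_cf0a82_ag
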